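import Mathlib
import Pool.Agent.Lib.MP_b33862_pr.Assemble

/-!
Joint continuity in `(λ, β)` of the pair correlation function of the Sine-beta process, for all
`β > 0`.
-/

set_option autoImplicit false

open MeasureTheory Set Filter
open scoped ENNReal Topology

namespace Pool.Agent.Results.MP_b33862_pr.JointContinuity

/-- The product `∏_{j<k} |e^{iθ_j} - e^{iθ_k}| ^ β`. -/
noncomputable def weight (β : ℝ) {n : ℕ} (θ : Fin n → ℝ) : ℝ :=
  ∏ j, ∏ k ∈ Finset.Ioi j,
    ‖Complex.exp (θ j * Complex.I) - Complex.exp (θ k * Complex.I)‖ ^ β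

/-- The cube `[-π, π)^n`. -/
def cube (n : ℕ) : Set (Fin n → ℝ) := Set.pi univ fun _ => Ico (-Real.pi) Real.pi

/-- The circular `β`-ensemble: the probability measure on `[-π, π)^n` whose density is proportional
to `∏_{j<k} |e^{iθ_j} - e^{iθ_k}| ^ β`. -/
noncomputable def circularEnsemble (β : ℝ) (n : ℕ) : Measure (Fin n → ℝ) :=
  (∫⁻ θ in cube n, ENNReal.ofReal (weight β θ))⁻¹ •
    (volume.restrict (cube n)).withDensity fun θ => ENNReal.ofReal (weight β θ)

/-- The random set `X` is the Sine-`β` process: it is (almost surely) a locally finite subset of the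
real line, the numbers of points in open intervals are measurable, and the point processes
`{n θ_1, ..., n θ_n}` of the circular `β`-ensembles converge in law to `X`, which is expressed by
the convergence of the Laplace functionals `E exp (-∑ f (n θ_j)) → E exp (-∑_{x ∈ X} f x)` for all
nonnegative continuous compactly supported `f`. -/
structure IsSine (β : ℝ) {Ω : Type*} [MeasurableSpace Ω] (P : Measure Ω) (X : Ω → Set ℝ) :
    Prop where
  prob : IsProbabilityMeasure P
  locallyFinite : ∀ᵐ ω ∂P, ∀ R : ℝ, (X ω ∩ Icc (-R) R).Finite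
  measurable : ∀ a b : ℝ, Measurable fun ω => (X ω ∩ Ioo a b).ncard
  limit : ∀ f : ℝ → ℝ, Continuous f → HasCompactSupport f → (∀ x, 0 ≤ f x) →
    Tendsto (fun n : ℕ => ∫ θ, Real.exp (-∑ j, f (n * θ j)) ∂(circularEnsemble β n)) atTop
      (𝓝 (∫ ω, Real.exp (-∑ᶠ x ∈ X ω, f x) ∂P))

open Classical in
/-- The second factorial moment measure of the point process `X` has the density
`(x, y) ↦ ρ (y - x)` with respect to Lebesgue measure. -/
def HasPairCorrelation {Ω : Type*} [MeasurableSpace Ω] (P : Measure Ω) (X : Ω → Set ℝ)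
    (ρ : ℝ → ℝ) : Prop :=
  ∀ F : ℝ × ℝ → ℝ≥0∞, Measurable F →
    ∫⁻ ω, ∑' x : X ω, ∑' y : X ω, (if x = y then 0 else F (x, y)) ∂P =
      ∫⁻ x, ∫⁻ y, F (x, y) * ENNReal.ofReal (ρ (y - x))

open Pool.Agent.Lib.MP_b33862_pr

lemma weight_eq (β : ℝ) {n : ℕ} (θ : Fin n → ℝ) : weight β θ = vand θ ^ β := by
  unfold weight vand e
  rw [← Real.finsetProd_rpow]
  · apply Finset.prod_congr rfl
    intro i _
    rw [← Real.finsetProd_rpow]
    intro j _; exact norm_nonneg _
  · intro i _; exact Finset.prod_nonneg fun _ _ => norm_nonneg _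

lemma circularEnsemble_eq {β : ℝ} (hβ : 0 ≤ β) (n : ℕ) : circularEnsemble β n = cbe β n := by
  unfold circularEnsemble cbe
  simp_rw [weight_eq]
  have hZ := Z_pos β hβ n
  set c : ℝ≥0∞ := (ENNReal.ofReal (2 * Real.pi))⁻¹ ^ n with hc
  have hc0 : c ≠ 0 := by
    rw [hc]; exact pow_ne_zero _ (ENNReal.inv_ne_zero.2 ENNReal.ofReal_ne_top)
  have hct : c ≠ ∞ := by
    rw [hc]
    apply ENNReal.pow_ne_top
    rw [ENNReal.inv_ne_top]
    exact two_pi_ne
  have htor : tor n = c • volume.restrict (cube n) := tor_eq n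
  have hZ' : ENNReal.ofReal (Z β n) = c * ∫⁻ θ in cube n, ENNReal.ofReal (vand θ ^ β) := by
    unfold Z
    rw [ofReal_integral_eq_lintegral_ofReal (integrable_vand_rpow0 hβ n)
      (Eventually.of_forall fun θ => Real.rpow_nonneg (vand_nonneg _) _), htor,
      lintegral_smul_measure, smul_eq_mul]
  have h1 : (fun θ : Fin n → ℝ => ENNReal.ofReal (vand θ ^ β / Z β n)) =
      (ENNReal.ofReal (Z β n))⁻¹ • fun θ : Fin n → ℝ => ENNReal.ofReal (vand θ ^ β) := by
    ext θ
    rw [Pi.smul_apply, smul_eq_mul, ENNReal.ofReal_div_of_pos hZ, div_eq_mul_inv, mul_comm]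
  rw [h1, withDensity_smul _ (vand_rpow_ofReal_measurable n β), htor, withDensity_smul_measure,
    smul_smul, hZ', ENNReal.mul_inv (Or.inl hc0) (Or.inl hct), mul_right_comm,
    ENNReal.inv_mul_cancel hc0 hct, one_mul]

/-- There is one function `ρ (λ, β)`, nonnegative and jointly continuous on `ℝ × (0, ∞)`, such that
for every `β > 0` the function `λ ↦ ρ (λ, β)` is the pair correlation function of the Sine-`β`
process. -/
theorem result : ∃ ρ : ℝ → ℝ → ℝ, (∀ x β, 0 ≤ ρ x β) ∧
    ContinuousOn (fun p : ℝ × ℝ => ρ p.1 p.2) (univ ×ˢ Ioi 0) ∧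
    ∀ β : ℝ, 0 < β → ∀ (Ω : Type*) [MeasurableSpace Ω] (P : Measure Ω) (X : Ω → Set ℝ),
      IsSine β P X → HasPairCorrelation P X fun x => ρ x β := by
  obtain ⟨r, hr0, hr⟩ := exists_ultra
  have hU : (hyperfilter ℕ : Filter ℕ) ≤ atTop := by
    rw [← Nat.cofinite_eq_atTop]; exact hyperfilter_le_cofinite
  obtain ⟨hc1, hc2⟩ := lim_cont hU hr
  refine ⟨r, hr0, hc2, ?_⟩
  intro β hβ Ω _ P X hX F hF
  classical
  have hP := hX.prob
  -- modify the random set on a null set
  set N : Set Ω := toMeasurable P {ω | ¬ ∀ R : ℝ, (X ω ∩ Icc (-R) R).Finite} with hN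
  have hNm : MeasurableSet N := measurableSet_toMeasurable _ _
  have hN0 : P N = 0 := by
    rw [hN, measure_toMeasurable]; exact hX.locallyFinite
  have hNae : ∀ᵐ ω ∂P, ω ∉ N := measure_eq_zero_iff_ae_notMem.1 hN0
  set Y : Ω → Set ℝ := fun ω => if ω ∈ N then ∅ else X ω with hY
  have hYX : ∀ᵐ ω ∂P, Y ω = X ω := by
    filter_upwards [hNae] with ω hω
    simp [hY, hω]
  have hfin : ∀ ω R, (Y ω ∩ Icc (-R) R).Finite := by
    intro ω R
    by_cases hω : ω ∈ N
    · simp [hY, hω]
    · have h1 : ∀ R : ℝ, (X ω ∩ Icc (-R) R).Finite := by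
        by_contra h
        exact hω (subset_toMeasurable _ _ h)
      simpa [hY, hω] using h1 R
  have hmeas : ∀ a b, Measurable fun ω => (Y ω ∩ Ioo a b).ncard := by
    intro a b
    have e1 : (fun ω => (Y ω ∩ Ioo a b).ncard) =
        fun ω => if ω ∈ N then 0 else (X ω ∩ Ioo a b).ncard := by
      ext ω
      by_cases hω : ω ∈ N <;> simp [hY, hω]
    rw [e1]
    exact Measurable.ite hNm measurable_const (hX.measurable a b)
  have hlap : ∀ f : ℝ → ℝ, Continuous f → HasCompactSupport f → (∀ x, 0 ≤ f x) →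
      Tendsto (fun n : ℕ => ∫ θ, Real.exp (-∑ i, f (n * θ i)) ∂(cbe β n)) atTop
        (𝓝 (∫ ω, Real.exp (-∑ᶠ x ∈ Y ω, f x) ∂P)) := by
    intro f hf hfs hf0
    have h1 := hX.limit f hf hfs hf0
    simp_rw [circularEnsemble_eq hβ.le] at h1
    have h2 : ∫ ω, Real.exp (-∑ᶠ x ∈ Y ω, f x) ∂P = ∫ ω, Real.exp (-∑ᶠ x ∈ X ω, f x) ∂P := by
      apply integral_congr_ae
      filter_upwards [hYX] with ω hω
      rw [hω]
    rwa [h2]
  have h := pair_corr hβ (fun x => hr0 x β) (hc1 β hβ) (hr β hβ) P hfin hmeas hlap hF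
  beta_reduce
  rw [← h]
  apply lintegral_congr_ae
  filter_upwards [hYX] with ω hω
  rw [hω]
  apply tsum_congr; intro x
  apply tsum_congr; intro y
  simp only [Subtype.ext_iff]

end Pool.Agent.Results.MP_b33862_pr.JointContinuity
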